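import Mathlib

set_option autoImplicit false

/-!
# Trace of products of oriented 0-1 matrices (MP_78b4c6_co)

Let `A₁, ..., A_t` be `n × n` matrices with entries `0, 1`, with ones on the diagonal, oriented off
the diagonal, such that the row sums of `A_k` are at least `r_k + 1`.  We give conditions on the
numbers `r_k` under which the trace of the product is larger than `n`:

* three of the numbers satisfy `n + ⌊(m - 1) / 2⌋ ≤ r_i + r_j + r_k`, where `m` is the smallest of
  them (this is the full conjecture for `t = 3` if one of the numbers is at most `2`);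
* a cyclic shift of an increasing list of indices splits into two blocks with growth numbers
  `a + b ≥ n` (see `Grows`);
* all numbers are at least `ρ` and `t` is about `n² / (2 ρ²)` (a precise form is in the statement).

If the trace is `n`, there are no closed walks using the matrices in increasing order.  Then the set
reached from a vertex `v` grows: one step adds a vertex; two matrices of degrees `a, b` reach at
least `b + 1 + a / 2` other vertices, as the second matrix is oriented on the out-neighbourhood of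
`v`; and of the vertices reached in a first block many reach a common vertex `u` in a second block,
and these are never reached again from `u`.  Finally the sets of the vertices that reach `x` in the
first part of the product and of those that are reached from `x` in the second part have only `x` in
common, and averaging over `x` bounds the sum of the growths of both parts.
-/

namespace Pool.Agent.Results.MP_78b4c6_co.BlockGrowth

open Finset

variable {n : ℕ}

/-- `A` is a 0-1 matrix with ones on the diagonal, oriented off the diagonal, and all its row sums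
are at least `r + 1`. -/
def Good (A : Matrix (Fin n) (Fin n) ℕ) (r : ℕ) : Prop :=
  (∀ i j, A i j = 0 ∨ A i j = 1) ∧ (∀ i, A i i = 1) ∧ (∀ i j, i ≠ j → A i j = 1 → A j i ≠ 1) ∧
    (∀ i, r + 1 ≤ ∑ j, A i j)

abbrev Mat (n : ℕ) := Matrix (Fin n) (Fin n) ℕ

def P (L : List (Mat n × ℕ)) : Mat n := (L.map Prod.fst).prod

def AG (L : List (Mat n × ℕ)) : Prop := ∀ p ∈ L, Good p.1 p.2

def NC (L : List (Mat n × ℕ)) : Prop := ∀ x, P L x x ≤ 1

def R (L : List (Mat n × ℕ)) (x : Fin n) : Finset (Fin n) := univ.filter (fun y => 0 < P L x y)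

def N (A : Mat n) (x : Fin n) : Finset (Fin n) := univ.filter (fun y => y ≠ x ∧ A x y = 1)

lemma P_nil : P ([] : List (Mat n × ℕ)) = 1 := by simp [P]

lemma P_cons (p : Mat n × ℕ) (L : List (Mat n × ℕ)) : P (p :: L) = p.1 * P L := by simp [P]

lemma P_append (L M : List (Mat n × ℕ)) : P (L ++ M) = P L * P M := by simp [P]

lemma P_cons_apply (p : Mat n × ℕ) (L : List (Mat n × ℕ)) (x y : Fin n) :
    P (p :: L) x y = ∑ z, p.1 x z * P L z y := by rw [P_cons, Matrix.mul_apply]

lemma AG_tail {p : Mat n × ℕ} {L : List (Mat n × ℕ)} (h : AG (p :: L)) : AG L :=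
  fun q hq => h q (List.mem_cons_of_mem _ hq)

lemma AG_head {p : Mat n × ℕ} {L : List (Mat n × ℕ)} (h : AG (p :: L)) : Good p.1 p.2 :=
  h p (by simp)

lemma diag_pos : ∀ (L : List (Mat n × ℕ)), AG L → ∀ x, 1 ≤ P L x x
  | [], _, x => by simp [P_nil]
  | p :: L, h, x => by
    rw [P_cons_apply]
    have h1 := diag_pos L (AG_tail h) x
    have h2 : p.1 x x * P L x x ≤ ∑ z, p.1 x z * P L z x :=
      Finset.single_le_sum (f := fun z => p.1 x z * P L z x) (fun _ _ => Nat.zero_le _)
        (Finset.mem_univ x)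
    rw [(AG_head h).2.1 x, one_mul] at h2
    omega

lemma cons_le {p : Mat n × ℕ} {L : List (Mat n × ℕ)} (h : AG (p :: L)) (x y : Fin n) :
    P L x y ≤ P (p :: L) x y := by
  rw [P_cons_apply]
  have h2 : p.1 x x * P L x y ≤ ∑ z, p.1 x z * P L z y :=
    Finset.single_le_sum (f := fun z => p.1 x z * P L z y) (fun _ _ => Nat.zero_le _)
      (Finset.mem_univ x)
  rwa [(AG_head h).2.1 x, one_mul] at h2

lemma cons_mono {p : Mat n × ℕ} {L M : List (Mat n × ℕ)} (h : ∀ x y, P L x y ≤ P M x y)
    (x y : Fin n) : P (p :: L) x y ≤ P (p :: M) x y := by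
  rw [P_cons_apply, P_cons_apply]
  exact Finset.sum_le_sum fun z _ => Nat.mul_le_mul_left _ (h z y)

lemma sublist_le : ∀ {L M : List (Mat n × ℕ)}, L.Sublist M → AG M → ∀ x y, P L x y ≤ P M x y := by
  intro L M h
  induction h with
  | slnil => intro _ x y; exact le_rfl
  | cons p h ih => intro hM x y; exact (ih (AG_tail hM) x y).trans (cons_le hM x y)
  | cons_cons p h ih => intro hM x y; exact cons_mono (ih (AG_tail hM)) x y

lemma NC_tail {p : Mat n × ℕ} {L : List (Mat n × ℕ)} (h : AG (p :: L)) (hn : NC (p :: L)) : NC L :=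
  fun x => (cons_le h x x).trans (hn x)

/-- No closed walk: after a step from `x` to `z` one cannot return to `x`. -/
lemma NC_step {p : Mat n × ℕ} {L : List (Mat n × ℕ)} (h : AG (p :: L)) (hn : NC (p :: L))
    {x z : Fin n} (hz : z ≠ x) (hx : p.1 x z = 1) : P L z x = 0 := by
  have h1 := hn x
  rw [P_cons_apply] at h1
  have h2 : ∑ w ∈ ({x, z} : Finset (Fin n)), p.1 x w * P L w x ≤ ∑ w, p.1 x w * P L w x :=
    Finset.sum_le_sum_of_subset (Finset.subset_univ _)
  rw [Finset.sum_pair hz.symm, (AG_head h).2.1 x, hx, one_mul, one_mul] at h2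
  have h3 := diag_pos L (AG_tail h) x
  omega

lemma mem_R {L : List (Mat n × ℕ)} {x y : Fin n} : y ∈ R L x ↔ 0 < P L x y := by simp [R]

lemma mem_N {A : Mat n} {x y : Fin n} : y ∈ N A x ↔ y ≠ x ∧ A x y = 1 := by simp [N]

lemma step_mem {p : Mat n × ℕ} {L : List (Mat n × ℕ)} {x z y : Fin n} (h1 : p.1 x z = 1)
    (h2 : y ∈ R L z) : y ∈ R (p :: L) x := by
  rw [mem_R] at *
  rw [P_cons_apply]
  have h3 : p.1 x z * P L z y ≤ ∑ w, p.1 x w * P L w y :=
    Finset.single_le_sum (f := fun w => p.1 x w * P L w y) (fun _ _ => Nat.zero_le _)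
      (Finset.mem_univ z)
  rw [h1, one_mul] at h3
  omega

lemma self_mem {L : List (Mat n × ℕ)} (h : AG L) (x : Fin n) : x ∈ R L x :=
  mem_R.2 (diag_pos L h x)

lemma tail_subset {p : Mat n × ℕ} {L : List (Mat n × ℕ)} (h : AG (p :: L)) (x : Fin n) :
    R L x ⊆ R (p :: L) x := fun _ hy => step_mem ((AG_head h).2.1 x) hy

lemma card_N {A : Mat n} {r : ℕ} (h : Good A r) (x : Fin n) : r ≤ (N A x).card := by
  have h1 := h.2.2.2 x
  have h2 : ∑ j, A x j = ∑ j, (if A x j = 1 then 1 else 0) := by
    refine Finset.sum_congr rfl fun j _ => ?_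
    rcases h.1 x j with h0 | h0 <;> simp [h0]
  rw [h2, ← Finset.card_filter] at h1
  have h3 : univ.filter (fun j => A x j = 1) = insert x (N A x) := by
    ext j
    simp only [mem_filter, mem_univ, true_and, mem_insert, mem_N]
    constructor
    · intro hj
      by_cases hx : j = x
      · exact Or.inl hx
      · exact Or.inr ⟨hx, hj⟩
    · rintro (hj | hj)
      · rw [hj]; exact h.2.1 x
      · exact hj.2
  rw [h3, Finset.card_insert_of_notMem (by simp [mem_N])] at h1
  omega

/-- A step with positive degree adds a vertex. -/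
lemma path_step {p : Mat n × ℕ} {L : List (Mat n × ℕ)} (h : AG (p :: L)) (hn : NC (p :: L))
    (hp : 1 ≤ p.2) {g : ℕ} (hg : ∀ v, g ≤ (R L v).card) (v : Fin n) :
    g + 1 ≤ (R (p :: L) v).card := by
  have h1 := card_N (AG_head h) v
  obtain ⟨w, hw⟩ := Finset.card_pos.1 (lt_of_lt_of_le hp h1)
  rw [mem_N] at hw
  have h2 : v ∉ R L w := by
    rw [mem_R, NC_step h hn hw.1 hw.2]; simp
  have h3 : insert v (R L w) ⊆ R (p :: L) v := by
    intro y hy
    rcases Finset.mem_insert.1 hy with hy | hy
    · rw [hy]; exact self_mem h v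
    · exact step_mem hw.2 hy
  have h4 := Finset.card_le_card h3
  rw [Finset.card_insert_of_notMem h2] at h4
  have := hg w
  omega

lemma zero_step {p : Mat n × ℕ} {L : List (Mat n × ℕ)} (h : AG (p :: L)) {g : ℕ}
    (hg : ∀ v, g ≤ (R L v).card) (v : Fin n) : g ≤ (R (p :: L) v).card :=
  (hg v).trans (Finset.card_le_card (tail_subset h v))

/-- One matrix. -/
lemma single {p : Mat n × ℕ} (h : AG [p]) (v : Fin n) : p.2 + 1 ≤ (R [p] v).card := by
  have h1 := card_N (AG_head h) v
  have h3 : insert v (N p.1 v) ⊆ R [p] v := by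
    intro y hy
    rcases Finset.mem_insert.1 hy with hy | hy
    · rw [hy]; exact self_mem h v
    · refine step_mem (mem_N.1 hy).2 ?_
      exact self_mem (L := []) (by intro q hq; simp at hq) y
  have h4 := Finset.card_le_card h3
  rw [Finset.card_insert_of_notMem (by simp [mem_N])] at h4
  omega

/-- Two matrices. -/
lemma pair {p q : Mat n × ℕ} (h : AG [p, q]) (hn : NC [p, q]) (hp : 1 ≤ p.2) (v : Fin n) :
    2 + q.2 + p.2 / 2 ≤ (R [p, q] v).card := by
  classical
  have hq : Good q.1 q.2 := AG_head (AG_tail h)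
  have h1 := card_N (AG_head h) v
  set W := N p.1 v with hW
  -- a vertex of `W` with few out-neighbours in `W`
  have hsum : 2 * ∑ w ∈ W, (N q.1 w ∩ W).card ≤ W.card * (W.card - 1) := by
    have e1 : ∑ w ∈ W, (N q.1 w ∩ W).card
        = ∑ w ∈ W, ∑ u ∈ W, (if u ≠ w ∧ q.1 w u = 1 then 1 else 0) := by
      refine Finset.sum_congr rfl fun w _ => ?_
      rw [← Finset.card_filter]
      congr 1
      ext u
      simp only [mem_inter, mem_N, mem_filter]
      tauto
    have e2 : ∑ w ∈ W, ∑ u ∈ W, (if u ≠ w ∧ q.1 w u = 1 then 1 else 0)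
        = ∑ w ∈ W, ∑ u ∈ W, (if w ≠ u ∧ q.1 u w = 1 then 1 else 0) := by
      rw [Finset.sum_comm]
    have e3 : ∑ w ∈ W, ∑ u ∈ W, (if u ≠ w ∧ q.1 w u = 1 then 1 else 0)
        + ∑ w ∈ W, ∑ u ∈ W, (if w ≠ u ∧ q.1 u w = 1 then 1 else 0)
        ≤ ∑ w ∈ W, ∑ u ∈ W, (if u ≠ w then 1 else 0) := by
      rw [← Finset.sum_add_distrib]
      refine Finset.sum_le_sum fun w _ => ?_
      rw [← Finset.sum_add_distrib]
      refine Finset.sum_le_sum fun u _ => ?_
      by_cases huw : u = w
      · simp [huw]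
      · have := hq.2.2.1 w u (Ne.symm huw)
        by_cases h5 : q.1 w u = 1
        · have h6 := this h5
          simp [huw, h5, h6]
        · by_cases h6 : q.1 u w = 1
          · simp [huw, h5, h6, Ne.symm huw]
          · simp [h5, h6]
    have e4 : ∑ w ∈ W, ∑ u ∈ W, (if u ≠ w then 1 else 0) = W.card * (W.card - 1) := by
      have : ∀ w ∈ W, ∑ u ∈ W, (if u ≠ w then 1 else 0) = W.card - 1 := by
        intro w hw
        rw [← Finset.card_filter, ← Finset.card_erase_of_mem hw]
        congr 1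
        ext u
        simp [and_comm]
      rw [Finset.sum_congr rfl this]
      simp
    rw [e1]
    omega
  have hpos : 0 < W.card := lt_of_lt_of_le hp h1
  have hex : ∃ w ∈ W, 2 * (N q.1 w ∩ W).card ≤ W.card - 1 := by
    by_contra hcon
    push Not at hcon
    have h5 : ∑ w ∈ W, (W.card - 1 + 1) ≤ ∑ w ∈ W, 2 * (N q.1 w ∩ W).card :=
      Finset.sum_le_sum fun w hw => hcon w hw
    rw [← Finset.mul_sum, Finset.sum_const, smul_eq_mul] at h5
    have h6 : W.card * (W.card - 1 + 1) ≤ W.card * (W.card - 1) := h5.trans hsum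
    have h7 : W.card - 1 + 1 ≤ W.card - 1 := Nat.le_of_mul_le_mul_left h6 hpos
    omega
  obtain ⟨w, hw, h5⟩ := hex
  have hw' := mem_N.1 hw
  have hv : v ∉ N q.1 w := by
    intro hv
    have h6 := NC_step h hn hw'.1 hw'.2
    have h7 : v ∈ R [q] w := step_mem (mem_N.1 hv).2 (self_mem (L := []) (by intro a ha; simp at ha) v)
    rw [mem_R, h6] at h7
    exact lt_irrefl _ h7
  have hsub : insert v (W ∪ (N q.1 w \ W)) ⊆ R [p, q] v := by
    intro y hy
    rcases Finset.mem_insert.1 hy with hy | hy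
    · rw [hy]; exact self_mem h v
    · rcases Finset.mem_union.1 hy with hy | hy
      · exact step_mem (mem_N.1 hy).2 (self_mem (AG_tail h) y)
      · refine step_mem hw'.2 ?_
        exact step_mem (mem_N.1 (Finset.mem_sdiff.1 hy).1).2
          (self_mem (L := []) (by intro a ha; simp at ha) y)
  have h8 := Finset.card_le_card hsub
  rw [Finset.card_insert_of_notMem, Finset.card_union_of_disjoint Finset.disjoint_sdiff] at h8
  · have h9 := card_N hq w
    have h10 : (N q.1 w \ W).card = (N q.1 w).card - (N q.1 w ∩ W).card := by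
      rw [Finset.card_sdiff, Finset.inter_comm]
    omega
  · intro hmem
    rcases Finset.mem_union.1 hmem with hm | hm
    · exact (mem_N.1 hm).1 rfl
    · exact hv (Finset.mem_sdiff.1 hm).1

lemma AG_left {L M : List (Mat n × ℕ)} (h : AG (L ++ M)) : AG L :=
  fun p hp => h p (List.mem_append_left _ hp)

lemma AG_right {L M : List (Mat n × ℕ)} (h : AG (L ++ M)) : AG M :=
  fun p hp => h p (List.mem_append_right _ hp)

lemma NC_left {L M : List (Mat n × ℕ)} (h : AG (L ++ M)) (hn : NC (L ++ M)) : NC L :=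
  fun x => (sublist_le (List.sublist_append_left L M) h x x).trans (hn x)

lemma NC_right {L M : List (Mat n × ℕ)} (h : AG (L ++ M)) (hn : NC (L ++ M)) : NC M :=
  fun x => (sublist_le (List.sublist_append_right L M) h x x).trans (hn x)

lemma append_mem {L M : List (Mat n × ℕ)} {x z y : Fin n} (h1 : z ∈ R L x) (h2 : y ∈ R M z) :
    y ∈ R (L ++ M) x := by
  rw [mem_R] at *
  rw [P_append, Matrix.mul_apply]
  exact lt_of_lt_of_le (Nat.mul_pos h1 h2) (Finset.single_le_sum
    (f := fun w => P L x w * P M w y) (fun _ _ => Nat.zero_le _) (Finset.mem_univ z))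

/-- No closed walks. -/
lemma no_return {L M : List (Mat n × ℕ)} (h : AG (L ++ M)) (hn : NC (L ++ M)) {x y : Fin n}
    (hxy : x ≠ y) (h1 : y ∈ R L x) (h2 : x ∈ R M y) : False := by
  classical
  rw [mem_R] at h1 h2
  have h3 := hn x
  rw [P_append, Matrix.mul_apply] at h3
  have h4 : ∑ w ∈ ({x, y} : Finset (Fin n)), P L x w * P M w x ≤ ∑ w, P L x w * P M w x :=
    Finset.sum_le_sum_of_subset (Finset.subset_univ _)
  rw [Finset.sum_pair hxy] at h4
  have h5 : 0 < P L x x * P M x x :=
    Nat.mul_pos (diag_pos L (AG_left h) x) (diag_pos M (AG_right h) x)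
  have h6 : 0 < P L x y * P M y x := Nat.mul_pos h1 h2
  omega

/-- Growth: many vertices reached from `v` in the first block reach the same vertex `u` in the
second block, and none of them is reached from `u` in the third block. -/
lemma two_step {L₁ L₂ L₃ : List (Mat n × ℕ)} (h : AG (L₁ ++ (L₂ ++ L₃)))
    (hn : NC (L₁ ++ (L₂ ++ L₃))) {g₁ g₂ g : ℕ} (hg₁ : ∀ v, g₁ + 1 ≤ (R L₁ v).card)
    (hg₂ : ∀ v, g₂ + 1 ≤ (R L₂ v).card) (hg : ∀ v, g + 1 ≤ (R L₃ v).card) (v : Fin n) :
    ∃ c, c + 1 = (R (L₁ ++ (L₂ ++ L₃)) v).card ∧ g ≤ c ∧ g₁ * g₂ ≤ c * (c - g - 1) := by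
  classical
  have a1 := AG_left h
  have a23 := AG_right h
  have a2 := AG_left a23
  have a3 := AG_right a23
  have n23 := NC_right h hn
  set U := (R (L₁ ++ (L₂ ++ L₃)) v).erase v with hU
  have hvmem := self_mem h v
  have hc : U.card + 1 = (R (L₁ ++ (L₂ ++ L₃)) v).card := Finset.card_erase_add_one hvmem
  have hmono : g ≤ U.card := by
    have h1 : R L₃ v ⊆ R (L₁ ++ (L₂ ++ L₃)) v := fun y hy =>
      append_mem (self_mem a1 v) (append_mem (self_mem a2 v) hy)
    have := (hg v).trans (Finset.card_le_card h1)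
    omega
  refine ⟨U.card, hc, hmono, ?_⟩
  by_cases h0 : g₁ * g₂ = 0
  · rw [h0]; exact Nat.zero_le _
  set W := (R L₁ v).erase v with hW
  have hWc : g₁ ≤ W.card := by
    have h1 := Finset.card_erase_add_one (self_mem a1 v)
    have h2 := hg₁ v
    rw [hW]; omega
  set Y : Fin n → Finset (Fin n) := fun w => (R L₂ w).erase w with hY
  have hYc : ∀ w, g₂ ≤ (Y w).card := by
    intro w
    have h1 := Finset.card_erase_add_one (self_mem a2 w)
    have h2 := hg₂ w
    rw [hY]; simp only; omega
  set X : Fin n → Finset (Fin n) := fun u => W.filter (fun w => u ∈ Y w) with hX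
  have hvne : ∀ w ∈ W, ∀ u, u ∈ R L₂ w → u ≠ v := by
    intro w hw u hu huv
    rw [huv] at hu
    have hw' := Finset.mem_erase.1 hw
    exact no_return h hn (Ne.symm hw'.1) hw'.2 (append_mem hu (self_mem a3 v))
  have hNU : ∀ w ∈ W, Y w ⊆ U := by
    intro w hw u hu
    have hw' := Finset.mem_erase.1 hw
    have hu' := Finset.mem_erase.1 hu
    exact Finset.mem_erase.2 ⟨hvne w hw u hu'.2,
      append_mem hw'.2 (append_mem hu'.2 (self_mem a3 u))⟩
  have hdc : ∑ u ∈ U, (X u).card = ∑ w ∈ W, (Y w).card := by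
    have e1 : ∀ u ∈ U, (X u).card = ∑ w ∈ W, (if u ∈ Y w then 1 else 0) := by
      intro u _
      rw [hX, Finset.card_filter]
    rw [Finset.sum_congr rfl e1, Finset.sum_comm]
    refine Finset.sum_congr rfl fun w hw => ?_
    rw [← Finset.card_filter]
    congr 1
    ext u
    simp only [mem_filter]
    exact ⟨fun hh => hh.2, fun hh => ⟨hNU w hw hh, hh⟩⟩
  have hlow : g₁ * g₂ ≤ ∑ u ∈ U, (X u).card := by
    rw [hdc]
    calc g₁ * g₂ ≤ W.card * g₂ := Nat.mul_le_mul_right _ hWc
      _ = ∑ w ∈ W, g₂ := by rw [Finset.sum_const, smul_eq_mul]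
      _ ≤ _ := Finset.sum_le_sum fun w _ => hYc w
  have hex : ∃ u ∈ U, g₁ * g₂ ≤ U.card * (X u).card := by
    by_contra hcon
    push Not at hcon
    have hne : U.Nonempty := by
      rw [Finset.nonempty_iff_ne_empty]
      intro he
      rw [he, Finset.sum_empty] at hlow
      exact h0 (Nat.le_zero.1 hlow)
    have h5 : ∑ u ∈ U, U.card * (X u).card < ∑ u ∈ U, g₁ * g₂ :=
      Finset.sum_lt_sum_of_nonempty hne fun u hu => hcon u hu
    rw [← Finset.mul_sum, Finset.sum_const, smul_eq_mul] at h5
    have h6 := Nat.lt_of_mul_lt_mul_left h5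
    omega
  obtain ⟨u, huU, hu⟩ := hex
  -- `X u` is disjoint from what is reached from `u`
  have hdisj : Disjoint (X u) (R L₃ u) := by
    rw [Finset.disjoint_left]
    intro w hw hwR
    rw [hX, Finset.mem_filter] at hw
    have hu' := Finset.mem_erase.1 hw.2
    exact no_return a23 n23 (Ne.symm hu'.1) hu'.2 hwR
  have hXpos : 0 < (X u).card := by
    rcases Nat.eq_zero_or_pos (X u).card with h7 | h7
    · rw [h7, mul_zero] at hu; omega
    · exact h7
  obtain ⟨w, hw⟩ := Finset.card_pos.1 hXpos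
  have hw2 := hw
  rw [hX, Finset.mem_filter] at hw2
  have hwv := Finset.mem_erase.1 hw2.1
  have huw := Finset.mem_erase.1 hw2.2
  have hvu : v ∉ R L₃ u := fun hvu =>
    no_return h hn (Ne.symm hwv.1) hwv.2 (append_mem huw.2 hvu)
  have hsub : X u ∪ R L₃ u ⊆ U := by
    intro y hy
    rcases Finset.mem_union.1 hy with hy1 | hy1
    · rw [hX, Finset.mem_filter] at hy1
      have hy2 := Finset.mem_erase.1 hy1.1
      exact Finset.mem_erase.2 ⟨hy2.1, append_mem hy2.2 (self_mem a23 y)⟩
    · refine Finset.mem_erase.2 ⟨?_, append_mem hwv.2 (append_mem huw.2 hy1)⟩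
      intro hyv
      rw [hyv] at hy1
      exact hvu hy1
  have h8 := Finset.card_le_card hsub
  rw [Finset.card_union_of_disjoint hdisj] at h8
  have h9 := hg u
  have h10 : (X u).card ≤ U.card - g - 1 := by omega
  exact hu.trans (Nat.mul_le_mul_left _ h10)

/-- Growth numbers: if `Grows l g`, then a product of matrices with degrees `l` and without closed
walks reaches at least `g` other vertices from every vertex (see `grows_sound`). -/
inductive Grows : List ℕ → ℕ → Prop
  | nil : Grows [] 0
  | one (b : ℕ) : Grows [b] b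
  | two (a b : ℕ) : 1 ≤ a → Grows [a, b] (b + 1 + a / 2)
  | skip (a : ℕ) (l : List ℕ) (g : ℕ) : Grows l g → Grows (a :: l) g
  | step (a : ℕ) (l : List ℕ) (g : ℕ) : 1 ≤ a → Grows l g → Grows (a :: l) (g + 1)
  | double (l₁ l₂ l₃ : List ℕ) (g₁ g₂ g c : ℕ) : Grows l₁ g₁ → Grows l₂ g₂ → Grows l₃ g →
      c * (c - g - 1) < g₁ * g₂ → Grows (l₁ ++ (l₂ ++ l₃)) (c + 1)

lemma grows_sound {l : List ℕ} {g : ℕ} (hg : Grows l g) :
    ∀ L : List (Mat n × ℕ), L.map Prod.snd = l → AG L → NC L → ∀ v, g + 1 ≤ (R L v).card := by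
  induction hg with
  | nil =>
    intro L _ h _ v
    exact Finset.card_pos.2 ⟨v, self_mem h v⟩
  | one b =>
    intro L hl h hn v
    match L, hl with
    | [p], hl =>
      have e : p.2 = b := by simpa using hl
      rw [← e]; exact single h v
  | two a b ha =>
    intro L hl h hn v
    match L, hl with
    | [p, q], hl =>
      have e : p.2 = a ∧ q.2 = b := by simpa using hl
      obtain ⟨e1, e2⟩ := e
      have := pair h hn (by omega) v
      omega
  | skip a l g _ ih =>
    intro L hl h hn v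
    match L, hl with
    | p :: L, hl =>
      have e : p.2 = a ∧ L.map Prod.snd = l := by simpa using hl
      exact zero_step h (ih L e.2 (AG_tail h) (NC_tail h hn)) v
  | step a l g ha _ ih =>
    intro L hl h hn v
    match L, hl with
    | p :: L, hl =>
      have e : p.2 = a ∧ L.map Prod.snd = l := by simpa using hl
      exact path_step h hn (by omega) (ih L e.2 (AG_tail h) (NC_tail h hn)) v
  | double l₁ l₂ l₃ g₁ g₂ g c _ _ _ hc ih₁ ih₂ ih₃ =>
    intro L hl h hn v
    obtain ⟨L₁, L', rfl, hl1, hl'⟩ := List.map_eq_append_iff.1 hl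
    obtain ⟨L₂, L₃, rfl, hl2, hl3⟩ := List.map_eq_append_iff.1 hl'
    have a23 := AG_right h
    have n23 := NC_right h hn
    obtain ⟨d, hd, hgd, hd'⟩ := two_step h hn
      (ih₁ L₁ hl1 (AG_left h) (NC_left h hn))
      (ih₂ L₂ hl2 (AG_left a23) (NC_left a23 n23))
      (ih₃ L₃ hl3 (AG_right a23) (NC_right a23 n23)) v
    have : c + 1 ≤ d := by
      by_contra hlt
      have h1 : d * (d - g - 1) ≤ c * (c - g - 1) := Nat.mul_le_mul (by omega) (by omega)
      omega
    omega

/-- Equal degrees. -/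
lemma uniform (r : ℕ) (hr : 1 ≤ r) : ∀ (m : ℕ) (L : List (Mat n × ℕ)), L.length = 2 * (m + 1) →
    (∀ p ∈ L, p.2 = r) → AG L → NC L →
    ∀ v, ∃ c, c + 1 = (R L v).card ∧ 8 * (m + 2) * r ^ 2 ≤ (2 * c + r) ^ 2
  | 0, L, hlen, hL, h, hn, v => by
    match L, hlen with
    | [p, q], _ =>
      have hp : p.2 = r := hL p (by simp)
      have hq : q.2 = r := hL q (by simp)
      have h1 := pair h hn (by omega) v
      refine ⟨(R [p, q] v).card - 1, by omega, ?_⟩
      have h2 : 4 * r ≤ 2 * ((R [p, q] v).card - 1) + r := by omega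
      calc 8 * (0 + 2) * r ^ 2 = (4 * r) ^ 2 := by ring
        _ ≤ _ := Nat.pow_le_pow_left h2 2
  | m + 1, L, hlen, hL, h, hn, v => by
    match L, hlen with
    | p :: q :: L, hlen =>
      have hp : p.2 = r := hL p (by simp)
      have hq : q.2 = r := hL q (by simp)
      have hlen' : L.length = 2 * (m + 1) := by
        simp only [List.length_cons] at hlen; omega
      have ih := uniform r hr m L hlen'
        (fun a ha => hL a (List.mem_cons_of_mem _ (List.mem_cons_of_mem _ ha)))
        (AG_tail (AG_tail h)) (NC_tail (AG_tail h) (NC_tail h hn))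
      obtain ⟨v₀, -, hv₀⟩ := Finset.exists_min_image (univ : Finset (Fin n))
        (fun v => (R L v).card) ⟨v, Finset.mem_univ v⟩
      obtain ⟨g, hg, hg'⟩ := ih v₀
      have hqs : AG [q] := AG_left (L := [q]) (M := L) (AG_tail h)
      have hps : AG [p] := AG_left (L := [p]) (M := q :: L) h
      obtain ⟨c, hc, hgc, hc'⟩ := two_step (L₁ := [p]) (L₂ := [q]) (L₃ := L) h hn (g := g)
        (single hps) (single hqs)
        (fun w => by rw [hg]; exact hv₀ w (Finset.mem_univ w)) v
      refine ⟨c, hc, ?_⟩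
      rw [hp, hq] at hc'
      have hr2 : 1 ≤ r * r := Nat.mul_pos hr hr
      obtain ⟨d, hd⟩ : ∃ d, c = g + 1 + d := by
        refine ⟨c - g - 1, ?_⟩
        have : c - g - 1 ≠ 0 := by
          intro h0; rw [h0] at hc'; omega
        omega
      have hd2 : c - g - 1 = d := by omega
      rw [hd2, hd] at hc'
      have key : (2 * g + r) ^ 2 + 8 * r ^ 2 ≤ (2 * c + r) ^ 2 := by
        rw [hd]
        rcases Nat.le_total (d + 1) r with h5 | h5
        · obtain ⟨s, rfl⟩ := Nat.exists_eq_add_of_le h5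
          nlinarith
        · nlinarith [Nat.mul_le_mul h5 h5]
      calc 8 * (m + 1 + 2) * r ^ 2 = 8 * (m + 2) * r ^ 2 + 8 * r ^ 2 := by ring
        _ ≤ (2 * g + r) ^ 2 + 8 * r ^ 2 := Nat.add_le_add_right hg' _
        _ ≤ _ := key

/-- Averaging: what reaches `x` and what is reached from `x` have only `x` in common. -/
lemma split {L M : List (Mat n × ℕ)} (h : AG (L ++ M)) (hn : NC (L ++ M)) (hpos : 0 < n)
    {g₁ g₂ : ℕ} (h1 : ∀ v, g₁ ≤ (R L v).card) (h2 : ∀ v, g₂ ≤ (R M v).card) :
    g₁ + g₂ ≤ n + 1 := by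
  classical
  have hx : ∀ x : Fin n, (univ.filter (fun y => 0 < P L y x)).card + (R M x).card ≤ n + 1 := by
    intro x
    have hint : (univ.filter (fun y => 0 < P L y x)) ∩ R M x ⊆ {x} := by
      intro y hy
      rw [Finset.mem_inter, Finset.mem_filter, mem_R] at hy
      by_contra hne
      rw [Finset.mem_singleton] at hne
      have h3 := hn y
      rw [P_append, Matrix.mul_apply] at h3
      have h4 : ∑ w ∈ ({y, x} : Finset (Fin n)), P L y w * P M w y ≤ ∑ w, P L y w * P M w y :=
        Finset.sum_le_sum_of_subset (Finset.subset_univ _)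
      rw [Finset.sum_pair hne] at h4
      have h5 : 0 < P L y y * P M y y :=
        Nat.mul_pos (diag_pos L (AG_left h) y) (diag_pos M (AG_right h) y)
      have h6 : 0 < P L y x * P M x y := Nat.mul_pos hy.1.2 hy.2
      omega
    have h3 := Finset.card_union_add_card_inter (univ.filter (fun y => 0 < P L y x)) (R M x)
    have h4 := Finset.card_le_card hint
    have h5 := Finset.card_le_univ ((univ.filter (fun y => 0 < P L y x)) ∪ R M x)
    rw [Fintype.card_fin] at h5
    rw [Finset.card_singleton] at h4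
    omega
  have hs : ∑ x : Fin n, (univ.filter (fun y => 0 < P L y x)).card = ∑ y : Fin n, (R L y).card := by
    simp only [R, Finset.card_filter]
    rw [Finset.sum_comm]
  have h3 : ∑ x : Fin n, (g₁ + g₂) ≤ ∑ x : Fin n, (n + 1) := by
    calc ∑ x : Fin n, (g₁ + g₂) ≤ ∑ x : Fin n, ((R L x).card + (R M x).card) :=
          Finset.sum_le_sum fun x _ => Nat.add_le_add (h1 x) (h2 x)
      _ = ∑ x : Fin n, ((univ.filter (fun y => 0 < P L y x)).card + (R M x).card) := by
          rw [Finset.sum_add_distrib, Finset.sum_add_distrib, hs]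
      _ ≤ _ := Finset.sum_le_sum fun x _ => hx x
  simp only [Finset.sum_const, Finset.card_univ, Fintype.card_fin, smul_eq_mul] at h3
  exact Nat.le_of_mul_le_mul_left h3 hpos

lemma NC_of_trace {L : List (Mat n × ℕ)} (h : AG L) (ht : Matrix.trace (P L) ≤ n) : NC L := by
  intro x
  by_contra hlt
  push Not at hlt
  have h1 : ∑ y : Fin n, 1 < ∑ y, P L y y :=
    Finset.sum_lt_sum (fun y _ => diag_pos L h y) ⟨x, Finset.mem_univ x, hlt⟩
  simp only [Finset.sum_const, Finset.card_univ, Fintype.card_fin, smul_eq_mul, mul_one] at h1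
  simp only [Matrix.trace, Matrix.diag] at ht
  omega

lemma trace_of_NC {L : List (Mat n × ℕ)} (hn : NC L) : Matrix.trace (P L) ≤ n := by
  have h1 : ∑ y, P L y y ≤ ∑ y : Fin n, 1 := Finset.sum_le_sum fun y _ => hn y
  simp only [Finset.sum_const, Finset.card_univ, Fintype.card_fin, smul_eq_mul, mul_one] at h1
  simpa only [Matrix.trace, Matrix.diag] using h1

lemma NC_rot {p : Mat n × ℕ} {L : List (Mat n × ℕ)} (h : AG (p :: L)) (hn : NC (p :: L)) :
    NC (L ++ [p]) := by
  refine NC_of_trace (fun q hq => h q ?_) ?_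
  · simp only [List.mem_append, List.mem_cons, List.not_mem_nil, or_false] at hq ⊢
    tauto
  · have h1 := trace_of_NC hn
    rw [P_cons, Matrix.trace_mul_comm] at h1
    rw [P_append]
    simpa [P] using h1

lemma three {a b c : Mat n × ℕ} (h : AG [a, b, c]) (hn : NC [a, b, c]) (hpos : 0 < n)
    (hc : n + (b.2 - 1) / 2 ≤ a.2 + b.2 + c.2) : False := by
  have h1 := split (L := [a]) (M := [b, c]) h hn hpos
    (g₁ := a.2 + 1) (g₂ := if b.2 = 0 then c.2 + 1 else 2 + c.2 + b.2 / 2)
    (fun v => single (AG_left (L := [a]) (M := [b, c]) h) v)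
    (fun v => by
      split_ifs with h0
      · exact zero_step (AG_tail h) (g := c.2 + 1) (fun w => single (AG_tail (AG_tail h)) w) v
      · exact pair (AG_tail h) (NC_tail h hn) (Nat.pos_of_ne_zero h0) v)
  split_ifs at h1 <;> omega

lemma sublist_finRange {t : ℕ} {K : List (Fin t)} (hK : K.Pairwise (· < ·)) :
    K.Sublist (List.finRange t) := by
  have h2 : (List.finRange t).Pairwise (· < ·) := (List.sortedLT_finRange t).pairwise
  have h1 : K.Subperm (List.finRange t) :=
    List.subperm_of_subset hK.nodup (fun x _ => List.mem_finRange x)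
  exact List.sublist_of_subperm_of_pairwise h1 hK h2

theorem result (n t : ℕ) (hn : 0 < n) (A : Fin t → Matrix (Fin n) (Fin n) ℕ) (r : Fin t → ℕ)
    (h01 : ∀ k i j, A k i j = 0 ∨ A k i j = 1) (hdiag : ∀ k i, A k i i = 1)
    (hor : ∀ k i j, i ≠ j → A k i j = 1 → A k j i ≠ 1)
    (hrow : ∀ k i, r k + 1 ≤ ∑ j, A k i j)
    (hcond :
      (∃ i j k : Fin t, i < j ∧ j < k ∧
        n + (min (r i) (min (r j) (r k)) - 1) / 2 ≤ r i + r j + r k) ∨
      (∃ (I J K₁ K₂ : List (Fin t)) (a b : ℕ), (K₁ ++ K₂).Pairwise (· < ·) ∧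
        I ++ J = K₂ ++ K₁ ∧ Grows (I.map r) a ∧ Grows (J.map r) b ∧ n ≤ a + b) ∨
      (∃ ρ m₁ m₂ x y : ℕ, (∀ k, ρ ≤ r k) ∧ 1 ≤ m₁ ∧ 1 ≤ m₂ ∧ 2 * (m₁ + m₂) ≤ t ∧ 2 * n ≤ x + y ∧
        (x + ρ) ^ 2 ≤ 8 * (m₁ + 1) * ρ ^ 2 ∧ (y + ρ) ^ 2 ≤ 8 * (m₂ + 1) * ρ ^ 2)) :
    n < Matrix.trace (List.ofFn A).prod := by
  by_contra hlt
  push Not at hlt
  -- everything for the degrees `s ≤ r`
  have main : ∀ s : Fin t → ℕ, (∀ k, s k ≤ r k) → ∀ K : List (Fin t), K.Pairwise (· < ·) →
      AG (K.map (fun k => (A k, s k))) ∧ NC (K.map (fun k => (A k, s k))) := by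
    intro s hs K hK
    have hAG : ∀ K' : List (Fin t), AG (K'.map (fun k => (A k, s k))) := by
      intro K' p hp
      obtain ⟨k, -, rfl⟩ := List.mem_map.1 hp
      exact ⟨h01 k, hdiag k, hor k, fun i => (Nat.add_le_add_right (hs k) 1).trans (hrow k i)⟩
    refine ⟨hAG K, ?_⟩
    have hfull : NC ((List.finRange t).map (fun k => (A k, s k))) := by
      refine NC_of_trace (hAG _) ?_
      have e : P ((List.finRange t).map (fun k => (A k, s k))) = (List.ofFn A).prod := by
        rw [P, List.map_map, List.ofFn_eq_map]; rfl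
      rw [e]; exact hlt
    intro x
    exact (sublist_le ((sublist_finRange hK).map _) (hAG _) x x).trans (hfull x)
  rcases hcond with ⟨i, j, k, hij, hjk, hc⟩ | ⟨I, J, K₁, K₂, a, b, hK, hIJ, ha, hb, hab⟩ |
      ⟨ρ, m₁, m₂, x, y, hρ, hm₁, hm₂, hm, hxy, hx, hy⟩
  · obtain ⟨h, hN⟩ := main r (fun _ => le_rfl) [i, j, k] (by
      simp only [List.pairwise_cons, List.mem_cons, List.not_mem_nil, or_false, forall_eq_or_imp,
        forall_eq, IsEmpty.forall_iff, implies_true, List.Pairwise.nil, and_true]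
      exact ⟨⟨hij, hij.trans hjk⟩, hjk⟩)
    simp only [List.map_cons, List.map_nil] at h hN
    have h1 : AG [(A j, r j), (A k, r k), (A i, r i)] := fun p hp => h p (by
      simp only [List.mem_cons, List.not_mem_nil, or_false] at hp ⊢; tauto)
    have h2 : AG [(A k, r k), (A i, r i), (A j, r j)] := fun p hp => h p (by
      simp only [List.mem_cons, List.not_mem_nil, or_false] at hp ⊢; tauto)
    have hN1 : NC [(A j, r j), (A k, r k), (A i, r i)] := NC_rot h hN
    have hN2 : NC [(A k, r k), (A i, r i), (A j, r j)] := NC_rot h1 hN1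
    have hm : min (r i) (min (r j) (r k)) = r i ∨ min (r i) (min (r j) (r k)) = r j ∨
        min (r i) (min (r j) (r k)) = r k := by omega
    rcases hm with hm | hm | hm
    · rw [hm] at hc
      exact three h2 hN2 hn (by simp only; omega)
    · rw [hm] at hc
      exact three h hN hn (by simp only; omega)
    · rw [hm] at hc
      exact three h1 hN1 hn (by simp only; omega)
  · obtain ⟨h, hN⟩ := main r (fun _ => le_rfl) (K₁ ++ K₂) hK
    rw [List.map_append] at h hN
    have h' : AG (I.map (fun k => (A k, r k)) ++ J.map (fun k => (A k, r k))) := by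
      rw [← List.map_append, hIJ, List.map_append]
      intro p hp
      refine h p ?_
      simp only [List.mem_append] at hp ⊢
      tauto
    have hN' : NC (I.map (fun k => (A k, r k)) ++ J.map (fun k => (A k, r k))) := by
      refine NC_of_trace h' ?_
      rw [← List.map_append, hIJ, List.map_append, P_append, Matrix.trace_mul_comm, ← P_append]
      exact trace_of_NC hN
    have e1 : (I.map (fun k => (A k, r k))).map Prod.snd = I.map r := by
      rw [List.map_map]; rfl
    have e2 : (J.map (fun k => (A k, r k))).map Prod.snd = J.map r := by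
      rw [List.map_map]; rfl
    have := split h' hN' hn (grows_sound ha _ e1 (AG_left h') (NC_left h' hN'))
      (grows_sound hb _ e2 (AG_right h') (NC_right h' hN'))
    omega
  · rcases Nat.eq_zero_or_pos ρ with h0 | h0
    · subst h0
      have h1 : x = 0 := by simpa using hx
      have h2 : y = 0 := by simpa using hy
      omega
    have hT : ((List.finRange t).take (2 * (m₁ + m₂))).Pairwise (· < ·) :=
      ((List.sortedLT_finRange t).pairwise).sublist (List.take_sublist _ _)
    obtain ⟨h, hN⟩ := main (fun _ => ρ) hρ _ hT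
    set T := (List.finRange t).take (2 * (m₁ + m₂)) with hTdef
    have hTlen : T.length = 2 * (m₁ + m₂) := by
      rw [hTdef, List.length_take, List.length_finRange]; omega
    have eT : T.map (fun k => (A k, ρ)) = (T.take (2 * m₁)).map (fun k => (A k, ρ))
        ++ (T.drop (2 * m₁)).map (fun k => (A k, ρ)) := by
      rw [← List.map_append, List.take_append_drop]
    rw [eT] at h hN
    obtain ⟨m₁, rfl⟩ : ∃ m, m₁ = m + 1 := ⟨m₁ - 1, by omega⟩
    obtain ⟨m₂, rfl⟩ : ∃ m, m₂ = m + 1 := ⟨m₂ - 1, by omega⟩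
    have u1 := uniform ρ h0 m₁ ((T.take (2 * (m₁ + 1))).map (fun k => (A k, ρ)))
      (by rw [List.length_map, List.length_take]; omega)
      (by intro p hp; obtain ⟨k, -, rfl⟩ := List.mem_map.1 hp; rfl) (AG_left h) (NC_left h hN)
    have u2 := uniform ρ h0 m₂ ((T.drop (2 * (m₁ + 1))).map (fun k => (A k, ρ)))
      (by rw [List.length_map, List.length_drop]; omega)
      (by intro p hp; obtain ⟨k, -, rfl⟩ := List.mem_map.1 hp; rfl) (AG_right h) (NC_right h hN)
    have b1 : ∀ v, (x + 1) / 2 + 1 ≤ (R ((T.take (2 * (m₁ + 1))).map (fun k => (A k, ρ))) v).card := by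
      intro v
      obtain ⟨c, hc, hc'⟩ := u1 v
      have h5 : (x + ρ) ^ 2 ≤ (2 * c + ρ) ^ 2 := hx.trans (by simpa [add_assoc] using hc')
      have h6 : x + ρ ≤ 2 * c + ρ := by
        by_contra h7
        push Not at h7
        have := Nat.pow_lt_pow_left h7 (n := 2) (by norm_num)
        omega
      omega
    have b2 : ∀ v, (y + 1) / 2 + 1 ≤ (R ((T.drop (2 * (m₁ + 1))).map (fun k => (A k, ρ))) v).card := by
      intro v
      obtain ⟨c, hc, hc'⟩ := u2 v
      have h5 : (y + ρ) ^ 2 ≤ (2 * c + ρ) ^ 2 := hy.trans (by simpa [add_assoc] using hc')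
      have h6 : y + ρ ≤ 2 * c + ρ := by
        by_contra h7
        push Not at h7
        have := Nat.pow_lt_pow_left h7 (n := 2) (by norm_num)
        omega
      omega
    have := split h hN hn b1 b2
    omega

end Pool.Agent.Results.MP_78b4c6_co.BlockGrowth
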