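import Pool.Agent.TH793.ST.Log

/-!
# Seymour's trace question up to a logarithmic factor

`(⌈2n/ρ⌉ - 2)(1 + ⌈log₂(n/ρ)⌉) + 1` matrices with row sums `≥ ρ + 1` suffice.
-/

set_option autoImplicit false

namespace Pool.Agent.Results.MP_78b4c6_co.LogarithmicLoss

theorem result (n t ρ l p : ℕ) (hn : 0 < n) (hρ : 0 < ρ)
    (A : Fin t → Matrix (Fin n) (Fin n) ℕ)
    (h01 : ∀ k i j, A k i j = 0 ∨ A k i j = 1)
    (hdiag : ∀ k i, A k i i = 1)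
    (hori : ∀ k i j, i ≠ j → A k i j = 1 → A k j i ≠ 1)
    (hrow : ∀ k i, ρ + 1 ≤ ∑ j, A k i j)
    (hl : n ≤ 2 ^ l * ρ) (hp : 2 * n ≤ ρ * (p + 2) + 1) (ht : p * (l + 1) + 1 ≤ t) :
    n < Matrix.trace (List.ofFn A).prod :=
  Pool.Agent.TH793.ST.log hn A (fun k => ⟨h01 k, hdiag k, hori k, hrow k⟩) hρ hl hp ht

end Pool.Agent.Results.MP_78b4c6_co.LogarithmicLoss
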