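import Pool.Agent.TH51.SeymourTrace.Arc

/-!
Problem MP_78b4c6_co, Q1 (Seymour): the trace conjecture holds if the sequence of matrices is
(ones)(block)(ones)(block)(ones), where ones are arbitrary matrices with `r k ≤ 1` and a block is a
single arbitrary matrix, or a sequence of matrices invariant under one transitive group, or two
matrices of which the first has `r k ≤ 2` and the second is oriented.
-/

set_option autoImplicit false

namespace Pool.Agent.Results.MP_78b4c6_co.TransitiveArcs

open Pool.Agent.TH51.SeymourTrace Finset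

variable {n : ℕ}

/-- Two matrices, the first with parameter at most two, the second oriented. -/
theorem two (M N : Mat n) (a b : ℕ) (ha : a ≤ 2) (hM : ∀ i, M i i ≠ 0) (hN : ∀ i, N i i ≠ 0)
    (hMr : ∀ i, a + 1 ≤ rowSupp M i) (hNr : ∀ i, b + 1 ≤ rowSupp N i)
    (hor : ∀ i j, i ≠ j → N i j ≠ 0 → N j i = 0)
    (hle : ∀ i, (M * N) i i ≤ 1) (i : Fin n) : 1 + (a + b) ≤ rowSupp (M * N) i := by
  classical
  have hmono : ∀ j, M i j ≠ 0 → ∀ v, N j v ≠ 0 → (M * N) i v ≠ 0 := by
    intro j hj v hv
    have e1 := mul_ge M N i v j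
    have e2 : 0 < M i j * N j v :=
      Nat.mul_pos (Nat.pos_of_ne_zero hj) (Nat.pos_of_ne_zero hv)
    omega
  have hself : ∀ j, M i j ≠ 0 → (M * N) i j ≠ 0 := fun j hj => hmono j hj j (hN j)
  have hzero : ∀ j, j ≠ i → M i j ≠ 0 → N j i = 0 := by
    intro j hji hj
    by_contra hne
    exact hji (closed hM hN hle i j hj hne).symm
  set X := (Finset.univ : Finset (Fin n)).filter (fun v => M i v ≠ 0) with hX
  have hXc : a + 1 ≤ X.card := hMr i
  have hiX : i ∈ X := by rw [hX, Finset.mem_filter]; exact ⟨Finset.mem_univ _, hM i⟩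
  have hXe : (X.erase i).card = X.card - 1 := Finset.card_erase_of_mem hiX
  have memX : ∀ j, j ∈ X.erase i → j ≠ i ∧ M i j ≠ 0 := by
    intro j hj
    rw [Finset.mem_erase, hX, Finset.mem_filter] at hj
    exact ⟨hj.1, hj.2.2⟩
  -- the support of the row of the product
  have key : ∀ (j : Fin n), M i j ≠ 0 → ∀ E : Finset (Fin n),
      (∀ v ∈ E, M i v ≠ 0 ∧ N j v = 0) → E.card + (b + 1) ≤ rowSupp (M * N) i := by
    intro j hj E hE
    have hsub : E ∪ (Finset.univ : Finset (Fin n)).filter (fun v => N j v ≠ 0) ⊆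
        (Finset.univ : Finset (Fin n)).filter (fun v => (M * N) i v ≠ 0) := by
      intro v hv
      rw [Finset.mem_union, Finset.mem_filter] at hv
      rw [Finset.mem_filter]
      rcases hv with hv | hv
      · exact ⟨Finset.mem_univ _, hself v (hE v hv).1⟩
      · exact ⟨Finset.mem_univ _, hmono j hj v hv.2⟩
    have hdis : Disjoint E ((Finset.univ : Finset (Fin n)).filter (fun v => N j v ≠ 0)) := by
      rw [Finset.disjoint_left]
      intro v hv hv2
      rw [Finset.mem_filter] at hv2
      exact hv2.2 (hE v hv).2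
    have hc := Finset.card_le_card hsub
    rw [Finset.card_union_of_disjoint hdis] at hc
    have := hNr j
    unfold rowSupp at this ⊢
    omega
  rcases Nat.eq_zero_or_pos a with h0 | h0
  · have := key i (hM i) ∅ (by simp)
    simp only [Finset.card_empty] at this
    omega
  · rcases Nat.lt_or_ge 1 a with h1 | h1
    · -- a = 2
      have h2 : 1 < (X.erase i).card := by omega
      obtain ⟨j, hj, k, hk, hjk⟩ := Finset.one_lt_card.mp h2
      obtain ⟨hji, hMj⟩ := memX j hj
      obtain ⟨hki, hMk⟩ := memX k hk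
      have hor' : N j k = 0 ∨ N k j = 0 := by
        by_cases h : N j k = 0
        · exact Or.inl h
        · exact Or.inr (hor j k hjk h)
      rcases hor' with h | h
      · have := key j hMj {i, k} (by
          intro v hv
          rw [Finset.mem_insert, Finset.mem_singleton] at hv
          rcases hv with rfl | rfl
          · exact ⟨hM _, hzero j hji hMj⟩
          · exact ⟨hMk, h⟩)
        rw [Finset.card_pair (Ne.symm hki)] at this
        omega
      · have := key k hMk {i, j} (by
          intro v hv
          rw [Finset.mem_insert, Finset.mem_singleton] at hv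
          rcases hv with rfl | rfl
          · exact ⟨hM _, hzero k hki hMk⟩
          · exact ⟨hMj, h⟩)
        rw [Finset.card_pair (Ne.symm hji)] at this
        omega
    · have h2 : 0 < (X.erase i).card := by omega
      obtain ⟨j, hj⟩ := Finset.card_pos.mp h2
      obtain ⟨hji, hMj⟩ := memX j hj
      have := key j hMj {i} (by
        intro v hv
        rw [Finset.mem_singleton] at hv
        subst hv
        exact ⟨hM _, hzero j hji hMj⟩)
      rw [Finset.card_singleton] at this
      omega

/-- An arc: at most one matrix, or all matrices invariant under a transitive group, or two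
matrices, the first with parameter at most two, the second oriented. -/
theorem arc (L : List (Mat n × ℕ)) (hd : ∀ x ∈ L, ∀ i, x.1 i i ≠ 0)
    (hr : ∀ x ∈ L, ∀ i, x.2 + 1 ≤ rowSupp x.1 i)
    (hI : L.length ≤ 1 ∨ (∃ G : Subgroup (Equiv.Perm (Fin n)),
      (∀ u v : Fin n, ∃ g ∈ G, g u = v) ∧ ∀ x ∈ L, Inv G x.1) ∨
      ∃ x y, L = [x, y] ∧ x.2 ≤ 2 ∧ ∀ i j, i ≠ j → y.1 i j ≠ 0 → y.1 j i = 0)
    (hle : ∀ i, (L.map Prod.fst).prod i i ≤ 1) (i : Fin n) :
    1 + (L.map Prod.snd).sum ≤ rowSupp (L.map Prod.fst).prod i := by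
  rcases hI with hI | ⟨G, htr, hI⟩ | ⟨x, y, rfl, hx2, hor⟩
  · match L, hI with
    | [], _ =>
      simp only [List.map_nil, List.sum_nil, List.prod_nil, add_zero]
      rw [rowSupp, Nat.succ_le_iff, Finset.card_pos]
      exact ⟨i, by simp⟩
    | [x], _ =>
      have := hr x (List.mem_singleton_self x) i
      simp only [List.map_cons, List.map_nil, List.sum_cons, List.sum_nil, List.prod_cons,
        List.prod_nil, mul_one, add_zero]
      omega
  · exact (inv_list G htr L hd hr hI hle).2 i
  · simp only [List.map_cons, List.map_nil, List.sum_cons, List.sum_nil, List.prod_cons,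
      List.prod_nil, mul_one, add_zero] at hle ⊢
    exact two x.1 y.1 x.2 y.2 hx2 (hd x (by simp)) (hd y (by simp)) (hr x (by simp))
      (hr y (by simp)) hor hle i

/-- Matrices with parameter at most one may be put in front of an arc. -/
theorem arc_ones (L2 : List (Mat n × ℕ)) (hd2 : ∀ x ∈ L2, ∀ i, x.1 i i ≠ 0)
    (hr2 : ∀ x ∈ L2, ∀ i, x.2 + 1 ≤ rowSupp x.1 i)
    (hI : L2.length ≤ 1 ∨ (∃ G : Subgroup (Equiv.Perm (Fin n)),
      (∀ u v : Fin n, ∃ g ∈ G, g u = v) ∧ ∀ x ∈ L2, Inv G x.1) ∨
      ∃ x y, L2 = [x, y] ∧ x.2 ≤ 2 ∧ ∀ i j, i ≠ j → y.1 i j ≠ 0 → y.1 j i = 0)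
    (L1 : List (Mat n × ℕ)) :
    (∀ x ∈ L1, ∀ i, x.1 i i ≠ 0) → (∀ x ∈ L1, ∀ i, x.2 + 1 ≤ rowSupp x.1 i) →
    (∀ x ∈ L1, x.2 ≤ 1) → (∀ i, ((L1 ++ L2).map Prod.fst).prod i i ≤ 1) →
    ∀ i, 1 + ((L1 ++ L2).map Prod.snd).sum ≤ rowSupp ((L1 ++ L2).map Prod.fst).prod i := by
  classical
  induction L1 with
  | nil =>
    intro _ _ _ hle i
    exact arc L2 hd2 hr2 hI hle i
  | cons x L1 ih =>
    intro hd hr h1 hle i
    have hxd := hd x (List.mem_cons_self ..)
    have hxr := hr x (List.mem_cons_self ..)
    have hx1 := h1 x (List.mem_cons_self ..)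
    have hd' : ∀ y ∈ L1, ∀ i, y.1 i i ≠ 0 := fun y hy => hd y (List.mem_cons_of_mem _ hy)
    have hr' : ∀ y ∈ L1, ∀ i, y.2 + 1 ≤ rowSupp y.1 i :=
      fun y hy => hr y (List.mem_cons_of_mem _ hy)
    have h1' : ∀ y ∈ L1, y.2 ≤ 1 := fun y hy => h1 y (List.mem_cons_of_mem _ hy)
    simp only [List.cons_append, List.map_cons, List.prod_cons, List.sum_cons] at hle ⊢
    set P := ((L1 ++ L2).map Prod.fst).prod with hP
    have hPd : ∀ i, P i i ≠ 0 := by
      apply listprod_diag
      intro M hM
      obtain ⟨y, hy, rfl⟩ := List.mem_map.mp hM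
      rcases List.mem_append.mp hy with hy | hy
      · exact hd' y hy
      · exact hd2 y hy
    have hPle : ∀ i, P i i ≤ 1 := by
      intro j
      have e1 := mul_ge x.1 P j j j
      have e2 : P j j ≤ x.1 j j * P j j := Nat.le_mul_of_pos_left _ (Nat.pos_of_ne_zero (hxd j))
      have e3 := hle j
      omega
    have hP' := ih hd' hr' h1' hPle
    have hmono : ∀ j, x.1 i j ≠ 0 → ∀ v, P j v ≠ 0 → (x.1 * P) i v ≠ 0 := by
      intro j hj v hv
      have e1 := mul_ge x.1 P i v j
      have e2 : 0 < x.1 i j * P j v :=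
        Nat.mul_pos (Nat.pos_of_ne_zero hj) (Nat.pos_of_ne_zero hv)
      omega
    rcases Nat.eq_zero_or_pos x.2 with h0 | h0
    · rw [h0, zero_add]
      refine (hP' i).trans ?_
      unfold rowSupp
      refine Finset.card_le_card (fun v hv => ?_)
      rw [Finset.mem_filter] at hv ⊢
      exact ⟨hv.1, hmono i (hxd i) v hv.2⟩
    · have hx2 : x.2 = 1 := by omega
      have hcard : 1 < rowSupp x.1 i := by
        have := hxr i
        omega
      unfold rowSupp at hcard
      obtain ⟨j, hj, hji⟩ := Finset.exists_mem_ne hcard i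
      rw [Finset.mem_filter] at hj
      have hnot : P j i = 0 := by
        by_contra hne
        exact hji (closed hxd hPd hle i j hj.2 hne).symm
      have hPj := hP' j
      have hsub : insert i ((Finset.univ : Finset (Fin n)).filter (fun v => P j v ≠ 0)) ⊆
          (Finset.univ : Finset (Fin n)).filter (fun v => (x.1 * P) i v ≠ 0) := by
        intro v hv
        rw [Finset.mem_insert, Finset.mem_filter] at hv
        rw [Finset.mem_filter]
        rcases hv with rfl | hv
        · exact ⟨Finset.mem_univ _, hmono v (hxd v) v (hPd v)⟩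
        · exact ⟨hv.1, hmono j hj.2 v hv.2⟩
      have hc := Finset.card_le_card hsub
      rw [Finset.card_insert_of_notMem (by simp [hnot])] at hc
      unfold rowSupp at hPj ⊢
      omega

/-- Double counting. -/
theorem count (P Q : Mat n) (h : ∀ u v, P u v ≠ 0 → Q v u ≠ 0 → u = v) :
    (∑ u, rowSupp P u) + (∑ u, rowSupp Q u) ≤ n * n + n := by
  classical
  have e1 : (∑ u, rowSupp P u) =
      ((Finset.univ : Finset (Fin n × Fin n)).filter (fun p => P p.1 p.2 ≠ 0)).card := by
    rw [Finset.card_filter, Fintype.sum_prod_type]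
    refine Finset.sum_congr rfl (fun u _ => ?_)
    rw [rowSupp, Finset.card_filter]
  have e2 : (∑ u, rowSupp Q u) =
      ((Finset.univ : Finset (Fin n × Fin n)).filter (fun p => Q p.2 p.1 ≠ 0)).card := by
    rw [Finset.card_filter, Fintype.sum_prod_type_right]
    refine Finset.sum_congr rfl (fun u _ => ?_)
    rw [rowSupp, Finset.card_filter]
  rw [e1, e2, ← Finset.card_union_add_card_inter]
  refine add_le_add ?_ ?_
  · refine (Finset.card_le_univ _).trans ?_
    simp
  · have hsub : ((Finset.univ : Finset (Fin n × Fin n)).filter (fun p => P p.1 p.2 ≠ 0)) ∩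
        ((Finset.univ : Finset (Fin n × Fin n)).filter (fun p => Q p.2 p.1 ≠ 0)) ⊆
        (Finset.univ : Finset (Fin n)).image (fun u => (u, u)) := by
      intro p hp
      rw [Finset.mem_inter, Finset.mem_filter, Finset.mem_filter] at hp
      have := h p.1 p.2 hp.1.2 hp.2.2
      rw [Finset.mem_image]
      exact ⟨p.1, Finset.mem_univ _, by ext <;> simp [this]⟩
    refine (Finset.card_le_card hsub).trans ?_
    refine Finset.card_image_le.trans ?_
    simp

theorem result (n t p s q u : ℕ) (hn : 0 < n) (A : Fin t → Matrix (Fin n) (Fin n) ℕ) (r : Fin t → ℕ)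
    (h01 : ∀ k i j, A k i j = 0 ∨ A k i j = 1)
    (hdiag : ∀ k i, A k i i = 1)
    (hrow : ∀ k i, r k + 1 ≤ ∑ j, A k i j)
    (hsum : n ≤ ∑ k, r k)
    (hps : p ≤ s) (hsq : s ≤ q) (hqu : q ≤ u)
    (hones₁ : ∀ k : Fin t, (k : ℕ) < p → r k ≤ 1)
    (hblock₁ : s ≤ p + 1 ∨ (∃ G : Subgroup (Equiv.Perm (Fin n)),
      (∀ v w : Fin n, ∃ g ∈ G, g v = w) ∧
      ∀ k : Fin t, p ≤ (k : ℕ) → (k : ℕ) < s → ∀ g ∈ G, ∀ i j, A k (g i) (g j) = A k i j) ∨
      (s = p + 2 ∧ (∀ k : Fin t, (k : ℕ) = p → r k ≤ 2) ∧
        ∀ k : Fin t, (k : ℕ) = p + 1 → ∀ i j, i ≠ j → A k i j = 1 → A k j i ≠ 1))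
    (hones₂ : ∀ k : Fin t, s ≤ (k : ℕ) → (k : ℕ) < q → r k ≤ 1)
    (hblock₂ : u ≤ q + 1 ∨ (∃ G : Subgroup (Equiv.Perm (Fin n)),
      (∀ v w : Fin n, ∃ g ∈ G, g v = w) ∧
      ∀ k : Fin t, q ≤ (k : ℕ) → (k : ℕ) < u → ∀ g ∈ G, ∀ i j, A k (g i) (g j) = A k i j) ∨
      (u = q + 2 ∧ (∀ k : Fin t, (k : ℕ) = q → r k ≤ 2) ∧
        ∀ k : Fin t, (k : ℕ) = q + 1 → ∀ i j, i ≠ j → A k i j = 1 → A k j i ≠ 1))
    (hones₃ : ∀ k : Fin t, u ≤ (k : ℕ) → r k ≤ 1) :
    n < Matrix.trace (List.ofFn A).prod := by
  classical
  set L : List (Mat n × ℕ) := List.ofFn (fun k => (A k, r k)) with hL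
  have hLlen : L.length = t := by rw [hL, List.length_ofFn]
  have hmem : ∀ x ∈ L, ∃ k, x = (A k, r k) := by
    intro x hx
    rw [hL, List.mem_ofFn] at hx
    obtain ⟨k, hk⟩ := hx
    exact ⟨k, hk.symm⟩
  have hd : ∀ x ∈ L, ∀ i, x.1 i i ≠ 0 := by
    intro x hx i
    obtain ⟨k, rfl⟩ := hmem x hx
    simp only
    rw [hdiag k i]
    exact one_ne_zero
  have hr : ∀ x ∈ L, ∀ i, x.2 + 1 ≤ rowSupp x.1 i := by
    intro x hx i
    obtain ⟨k, rfl⟩ := hmem x hx
    simp only
    refine (hrow k i).trans ?_
    rw [rowSupp, Finset.card_filter]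
    refine Finset.sum_le_sum (fun j _ => ?_)
    rcases h01 k i j with h | h <;> simp [h]
  have hLprod : (L.map Prod.fst).prod = (List.ofFn A).prod := by
    rw [hL, List.map_ofFn]; rfl
  have hLsum : (L.map Prod.snd).sum = ∑ k, r k := by
    rw [hL, List.map_ofFn, List.sum_ofFn]; rfl
  set L1 := L.take s with hL1
  set L2 := (L.drop s).take (u - s) with hL2
  set L3 := L.drop u with hL3
  have hsplit : L1 ++ (L2 ++ L3) = L := by
    have h1 : L2 ++ L3 = L.drop s := by
      have h2 : L3 = (L.drop s).drop (u - s) := by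
        rw [hL3, List.drop_drop]
        congr 1
        omega
      rw [h2, hL2, List.take_append_drop]
    rw [h1, hL1, List.take_append_drop]
  have hm1 : ∀ x ∈ L1, x ∈ L := fun x hx => List.mem_of_mem_take hx
  have hm2 : ∀ x ∈ L2, x ∈ L := fun x hx => List.mem_of_mem_drop (List.mem_of_mem_take hx)
  have hm3 : ∀ x ∈ L3, x ∈ L := fun x hx => List.mem_of_mem_drop hx
  have hm31 : ∀ x ∈ L3 ++ L1, x ∈ L := by
    intro x hx
    rcases List.mem_append.mp hx with h | h
    · exact hm3 x h
    · exact hm1 x h
  set P := ((L3 ++ L1).map Prod.fst).prod with hP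
  set Q := (L2.map Prod.fst).prod with hQ
  have hPQ : Matrix.trace (P * Q) = Matrix.trace (List.ofFn A).prod := by
    rw [← hLprod, ← hsplit, hP, hQ]
    simp only [List.map_append, List.prod_append]
    rw [Matrix.mul_assoc, Matrix.trace_mul_comm, Matrix.mul_assoc]
  have hPd : ∀ i, P i i ≠ 0 := by
    apply listprod_diag
    intro M hM
    obtain ⟨y, hy, rfl⟩ := List.mem_map.mp hM
    exact hd y (hm31 y hy)
  have hQd : ∀ i, Q i i ≠ 0 := by
    apply listprod_diag
    intro M hM
    obtain ⟨y, hy, rfl⟩ := List.mem_map.mp hM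
    exact hd y (hm2 y hy)
  by_contra hcon
  rw [not_lt, ← hPQ] at hcon
  have hge : ∀ i, 1 ≤ (P * Q) i i := by
    intro i
    have h1 := mul_ge P Q i i i
    have h2 : 0 < P i i * Q i i :=
      Nat.mul_pos (Nat.pos_of_ne_zero (hPd i)) (Nat.pos_of_ne_zero (hQd i))
    omega
  have hle : ∀ i, (P * Q) i i ≤ 1 := by
    intro i
    by_contra hi
    have h1 : ∑ j : Fin n, 1 < ∑ j, (P * Q) j j :=
      Finset.sum_lt_sum (fun j _ => hge j) ⟨i, Finset.mem_univ i, by omega⟩
    have h2 : Matrix.trace (P * Q) = ∑ j, (P * Q) j j := rfl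
    rw [h2] at hcon
    simp at h1
    omega
  have hPle : ∀ i, P i i ≤ 1 := by
    intro i
    have h1 := mul_ge P Q i i i
    have h3 : P i i ≤ P i i * Q i i := Nat.le_mul_of_pos_right _ (Nat.pos_of_ne_zero (hQd i))
    have h4 := hle i
    omega
  have hQle : ∀ i, Q i i ≤ 1 := by
    intro i
    have h1 := mul_ge P Q i i i
    have h3 : Q i i ≤ P i i * Q i i := Nat.le_mul_of_pos_left _ (Nat.pos_of_ne_zero (hPd i))
    have h4 := hle i
    omega
  have getL : ∀ (k : ℕ) (hk : k < t), L[k]'(by omega) = (A ⟨k, hk⟩, r ⟨k, hk⟩) := by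
    intro k hk
    simp only [hL, List.getElem_ofFn]
  have hor' : ∀ k : Fin t, (∀ i j, i ≠ j → A k i j = 1 → A k j i ≠ 1) →
      ∀ i j, i ≠ j → A k i j ≠ 0 → A k j i = 0 := by
    intro k h i j hij hne
    have h1 : A k i j = 1 := by
      rcases h01 k i j with h | h
      · exact absurd h hne
      · exact h
    have h2 := h i j hij h1
    rcases h01 k j i with h | h
    · exact h
    · exact absurd h h2
  have s1 : L3 ++ L1 = (L3 ++ L1.take p) ++ L1.drop p := by
    rw [List.append_assoc, List.take_append_drop]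
  have s2 : L2 = L2.take (q - s) ++ L2.drop (q - s) := (List.take_append_drop (q - s) L2).symm
  have a1 : ∀ i, 1 + ((L3 ++ L1).map Prod.snd).sum ≤ rowSupp P i := by
    have h := arc_ones (L1.drop p) (fun x hx => hd x (hm1 x (List.mem_of_mem_drop hx)))
      (fun x hx => hr x (hm1 x (List.mem_of_mem_drop hx)))
      (by
        rcases hblock₁ with h | ⟨G, htr, hG⟩ | ⟨hs2, hr2, hor⟩
        · left
          rw [List.length_drop, hL1, List.length_take]
          omega
        · right; left
          refine ⟨G, htr, fun x hx => ?_⟩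
          rw [List.mem_drop_iff_getElem] at hx
          obtain ⟨k, hk, rfl⟩ := hx
          have hk1 : p + k < s ∧ p + k < t := by
            rw [hL1, List.length_take] at hk
            omega
          have e : L1[p + k]'(by omega) = (A ⟨p + k, hk1.2⟩, r ⟨p + k, hk1.2⟩) := by
            rw [← getL (p + k) hk1.2]
            simp only [hL1, List.getElem_take]
          rw [e]
          intro g hg i j
          exact hG ⟨p + k, hk1.2⟩ (by simp only; omega) (by simp only; omega) g hg i j
        · by_cases hlen : (L1.drop p).length ≤ 1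
          · exact Or.inl hlen
          · right; right
            have hlen2 : (L1.drop p).length = 2 := by
              rw [List.length_drop, hL1, List.length_take] at hlen ⊢
              omega
            have hpt : p + 1 < t := by
              rw [List.length_drop, hL1, List.length_take] at hlen
              omega
            obtain ⟨x, y, hxy⟩ := List.length_eq_two.mp hlen2
            have hx : x = (A ⟨p, by omega⟩, r ⟨p, by omega⟩) := by
              have e : x = (L1.drop p)[0] := by simp [hxy]
              rw [e, ← getL p (by omega)]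
              simp only [hL1, List.getElem_drop, List.getElem_take, Nat.add_zero]
            have hy : y = (A ⟨p + 1, hpt⟩, r ⟨p + 1, hpt⟩) := by
              have e : y = (L1.drop p)[1] := by simp [hxy]
              rw [e, ← getL (p + 1) hpt]
              simp only [hL1, List.getElem_drop, List.getElem_take]
            refine ⟨x, y, hxy, ?_, ?_⟩
            · rw [hx]; exact hr2 _ rfl
            · rw [hy]; exact hor' _ (hor _ rfl))
      (L3 ++ L1.take p)
      (fun x hx => hd x (by
        rcases List.mem_append.mp hx with hx | hx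
        · exact hm3 x hx
        · exact hm1 x (List.mem_of_mem_take hx)))
      (fun x hx => hr x (by
        rcases List.mem_append.mp hx with hx | hx
        · exact hm3 x hx
        · exact hm1 x (List.mem_of_mem_take hx)))
      (by
        intro x hx
        rcases List.mem_append.mp hx with hx | hx
        · rw [hL3, List.mem_drop_iff_getElem] at hx
          obtain ⟨k, hk, rfl⟩ := hx
          have hk1 : u + k < t := by omega
          rw [getL (u + k) hk1]
          exact hones₃ ⟨u + k, hk1⟩ (by simp only; omega)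
        rw [List.mem_take_iff_getElem] at hx
        obtain ⟨k, hk, rfl⟩ := hx
        have hk1 : k < p ∧ k < t := by
          rw [hL1, List.length_take] at hk
          omega
        have e : L1[k]'(by omega) = (A ⟨k, hk1.2⟩, r ⟨k, hk1.2⟩) := by
          rw [← getL k hk1.2]
          simp only [hL1, List.getElem_take]
        rw [e]
        exact hones₁ ⟨k, hk1.2⟩ (by simp only; omega))
      (by rw [← s1]; exact hPle)
    rw [← s1] at h
    exact h
  have a2 : ∀ i, 1 + (L2.map Prod.snd).sum ≤ rowSupp Q i := by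
    have h := arc_ones (L2.drop (q - s)) (fun x hx => hd x (hm2 x (List.mem_of_mem_drop hx)))
      (fun x hx => hr x (hm2 x (List.mem_of_mem_drop hx)))
      (by
        rcases hblock₂ with h | ⟨G, htr, hG⟩ | ⟨hs2, hr2, hor⟩
        · left
          rw [List.length_drop, hL2, List.length_take, List.length_drop]
          omega
        · right; left
          refine ⟨G, htr, fun x hx => ?_⟩
          rw [List.mem_drop_iff_getElem] at hx
          obtain ⟨k, hk, rfl⟩ := hx
          have hk1 : s + (q - s + k) < t ∧ s + (q - s + k) < u := by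
            rw [hL2, List.length_take, List.length_drop] at hk
            omega
          have e : L2[q - s + k]'(by omega) =
              (A ⟨s + (q - s + k), hk1.1⟩, r ⟨s + (q - s + k), hk1.1⟩) := by
            rw [← getL (s + (q - s + k)) hk1.1]
            simp only [hL2, List.getElem_take, List.getElem_drop]
          rw [e]
          intro g hg i j
          exact hG ⟨s + (q - s + k), hk1.1⟩ (by simp only; omega) (by simp only; omega) g hg i j
        · by_cases hlen : (L2.drop (q - s)).length ≤ 1
          · exact Or.inl hlen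
          · right; right
            have hlen2 : (L2.drop (q - s)).length = 2 := by
              rw [List.length_drop, hL2, List.length_take, List.length_drop] at hlen ⊢
              omega
            have hpt : q + 1 < t := by
              rw [List.length_drop, hL2, List.length_take, List.length_drop] at hlen
              omega
            obtain ⟨x, y, hxy⟩ := List.length_eq_two.mp hlen2
            have hx : x = (A ⟨q, by omega⟩, r ⟨q, by omega⟩) := by
              have e : x = (L2.drop (q - s))[0] := by simp [hxy]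
              rw [e, ← getL q (by omega)]
              simp only [hL2, List.getElem_drop, List.getElem_take]
              congr 1
              omega
            have hy : y = (A ⟨q + 1, hpt⟩, r ⟨q + 1, hpt⟩) := by
              have e : y = (L2.drop (q - s))[1] := by simp [hxy]
              rw [e, ← getL (q + 1) hpt]
              simp only [hL2, List.getElem_drop, List.getElem_take]
              congr 1
              omega
            refine ⟨x, y, hxy, ?_, ?_⟩
            · rw [hx]; exact hr2 _ rfl
            · rw [hy]; exact hor' _ (hor _ rfl))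
      (L2.take (q - s)) (fun x hx => hd x (hm2 x (List.mem_of_mem_take hx)))
      (fun x hx => hr x (hm2 x (List.mem_of_mem_take hx)))
      (by
        intro x hx
        rw [List.mem_take_iff_getElem] at hx
        obtain ⟨k, hk, rfl⟩ := hx
        have hk1 : k < q - s ∧ s + k < t := by
          rw [hL2, List.length_take, List.length_drop] at hk
          omega
        have e : L2[k]'(by omega) = (A ⟨s + k, hk1.2⟩, r ⟨s + k, hk1.2⟩) := by
          rw [← getL (s + k) hk1.2]
          simp only [hL2, List.getElem_take, List.getElem_drop]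
        rw [e]
        exact hones₂ ⟨s + k, hk1.2⟩ (by simp only; omega) (by simp only; omega))
      (by rw [← s2]; exact hQle)
    rw [← s2] at h
    exact h
  have hc := count P Q (fun u v h1 h2 => closed hPd hQd hle u v h1 h2)
  have b1 : n * (1 + ((L3 ++ L1).map Prod.snd).sum) ≤ ∑ u, rowSupp P u := by
    have := Finset.sum_le_sum (fun (u : Fin n) (_ : u ∈ Finset.univ) => a1 u)
    simpa using this
  have b2 : n * (1 + (L2.map Prod.snd).sum) ≤ ∑ u, rowSupp Q u := by
    have := Finset.sum_le_sum (fun (u : Fin n) (_ : u ∈ Finset.univ) => a2 u)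
    simpa using this
  have hs : ((L3 ++ L1).map Prod.snd).sum + (L2.map Prod.snd).sum = ∑ k, r k := by
    rw [← hLsum, ← hsplit]
    simp only [List.map_append, List.sum_append]
    omega
  have h5 : n * (2 + ∑ k, r k) ≤ n * (n + 1) := by
    rw [← hs]
    nlinarith
  have h6 := Nat.le_of_mul_le_mul_left h5 hn
  omega

end Pool.Agent.Results.MP_78b4c6_co.TransitiveArcs
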